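import Mathlib

/-!
The Cauchy kernel and its Fourier transform; Plancherel identities for Dirichlet series.
-/

set_option autoImplicit false

namespace Pool.Agent.Y122.LT

open Finset Filter MeasureTheory
open scoped FourierTransform ComplexConjugate

/-- the Cauchy kernel -/
noncomputable def K (B y : ℝ) : ℝ := B / (B ^ 2 + y ^ 2)

theorem K_nonneg {B : ℝ} (hB : 0 < B) (y : ℝ) : 0 ≤ K B y := by
  unfold K; positivity

theorem K_cont {B : ℝ} (hB : 0 < B) : Continuous (K B) := by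
  unfold K
  refine Continuous.div continuous_const (by fun_prop) ?_
  intro y; positivity

theorem K_int {B : ℝ} (hB : 0 < B) : Integrable (K B) := by
  have h1 : Integrable (fun x : ℝ => (1 + (x / B) ^ 2)⁻¹) :=
    integrable_inv_one_add_sq.comp_div hB.ne'
  have h2 : K B = fun x => B⁻¹ * (1 + (x / B) ^ 2)⁻¹ := by
    funext x; unfold K; field_simp
  rw [h2]; exact h1.const_mul _

theorem exp_abs_split {B : ℝ} (hB : 0 < B) (u : ℝ) :
    Integrable (fun x : ℝ => Complex.exp (-(x * u : ℝ) * Complex.I) * (Real.exp (-(B * |x|)) : ℂ)) ∧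
    ∫ x : ℝ, Complex.exp (-(x * u : ℝ) * Complex.I) * (Real.exp (-(B * |x|)) : ℂ) =
      2 * (K B u : ℂ) := by
  set a : ℂ := (B : ℂ) - u * Complex.I with ha
  set b : ℂ := -(B : ℂ) - u * Complex.I with hb
  have hare : 0 < a.re := by simp [ha, hB]
  have hbre : b.re < 0 := by simp [hb, hB]
  have e1 : ∀ x ∈ Set.Iic (0 : ℝ), Complex.exp (a * x) =
      Complex.exp (-(x * u : ℝ) * Complex.I) * (Real.exp (-(B * |x|)) : ℂ) := by
    intro x hx
    rw [abs_of_nonpos hx, Complex.ofReal_exp, ← Complex.exp_add]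
    congr 1; rw [ha]; push_cast; ring
  have e2 : ∀ x ∈ Set.Ioi (0 : ℝ), Complex.exp (b * x) =
      Complex.exp (-(x * u : ℝ) * Complex.I) * (Real.exp (-(B * |x|)) : ℂ) := by
    intro x hx
    rw [abs_of_pos hx, Complex.ofReal_exp, ← Complex.exp_add]
    congr 1; rw [hb]; push_cast; ring
  have i1 : IntegrableOn (fun x : ℝ => Complex.exp (-(x * u : ℝ) * Complex.I) *
      (Real.exp (-(B * |x|)) : ℂ)) (Set.Iic 0) :=
    (integrableOn_exp_mul_complex_Iic hare 0).congr_fun e1 measurableSet_Iic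
  have i2 : IntegrableOn (fun x : ℝ => Complex.exp (-(x * u : ℝ) * Complex.I) *
      (Real.exp (-(B * |x|)) : ℂ)) (Set.Ioi 0) :=
    (integrableOn_exp_mul_complex_Ioi hbre 0).congr_fun e2 measurableSet_Ioi
  refine ⟨?_, ?_⟩
  · rw [← integrableOn_univ, ← Set.Iic_union_Ioi (a := (0 : ℝ))]
    exact i1.union i2
  · rw [← intervalIntegral.integral_Iic_add_Ioi i1 i2,
      ← setIntegral_congr_fun measurableSet_Iic e1, ← setIntegral_congr_fun measurableSet_Ioi e2,
      integral_exp_mul_complex_Iic hare, integral_exp_mul_complex_Ioi hbre]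
    have ha0 : a ≠ 0 := fun h => by rw [h] at hare; simp at hare
    have hb0 : b ≠ 0 := fun h => by rw [h] at hbre; simp at hbre
    have hK : (K B u : ℂ) = B / (B ^ 2 + u ^ 2) := by unfold K; push_cast; ring
    have hne : ((B : ℂ) ^ 2 + (u : ℂ) ^ 2) ≠ 0 := by
      have : (0 : ℝ) < B ^ 2 + u ^ 2 := by positivity
      exact_mod_cast this.ne'
    rw [hK]
    simp only [Complex.ofReal_zero, mul_zero, Complex.exp_zero]
    have hab : a * b = -((B : ℂ) ^ 2 + (u : ℂ) ^ 2) := by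
      rw [ha, hb]; ring_nf; rw [Complex.I_sq]; ring
    have : (1 : ℂ) / a + -1 / b = (b - a) / (a * b) := by field_simp; ring
    rw [this, hab, ha, hb]
    field_simp
    ring

/-- the Fourier transform of the Cauchy kernel -/
theorem K_fourier {B : ℝ} (hB : 0 < B) (u : ℝ) :
    ∫ y : ℝ, Complex.exp (-(y * u : ℝ) * Complex.I) * (K B y : ℂ) =
      (Real.pi * Real.exp (-(B * |u|)) : ℝ) := by
  set f : ℝ → ℂ := fun x => (Real.exp (-(B * |x|)) : ℂ) with hf
  have hfc : Continuous f := by rw [hf]; fun_prop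
  have hfi : Integrable f := by
    have := (exp_abs_split hB 0).1
    simpa [hf] using this
  have hF : ∀ ξ : ℝ, 𝓕 f ξ = 2 * (K B (2 * Real.pi * ξ) : ℂ) := by
    intro ξ
    rw [Real.fourier_real_eq_integral_exp_smul, ← (exp_abs_split hB (2 * Real.pi * ξ)).2]
    congr 1; funext x
    rw [smul_eq_mul]
    congr 2; push_cast; ring
  have hFi : Integrable (𝓕 f) := by
    have h1 : (𝓕 f) = fun ξ : ℝ => 2 * (K B (2 * Real.pi * ξ) : ℂ) := funext hF
    rw [h1]
    have h2 : Integrable (fun ξ : ℝ => K B (2 * Real.pi * ξ)) :=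
      (K_int hB).comp_mul_left' (by positivity)
    exact (h2.ofReal).const_mul 2
  have hinv := congrFun (hfc.fourierInv_fourier_eq hfi hFi) u
  rw [Real.fourierInv_eq'] at hinv
  have h3 : ∫ v : ℝ, Complex.exp ((↑(2 * Real.pi * inner ℝ v u) * Complex.I)) • 𝓕 f v =
      ∫ v : ℝ, (fun y : ℝ => Complex.exp ((y * u : ℝ) * Complex.I) * (2 * (K B y : ℂ)))
        (2 * Real.pi * v) := by
    congr 1; funext v
    rw [hF, smul_eq_mul]
    congr 3
    simp [mul_comm, mul_left_comm, mul_assoc]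
  rw [h3, Measure.integral_comp_mul_left (fun y : ℝ => Complex.exp ((y * u : ℝ) * Complex.I) *
    (2 * (K B y : ℂ))) (2 * Real.pi)] at hinv
  have h4 : ∫ y : ℝ, Complex.exp (-(y * u : ℝ) * Complex.I) * (K B y : ℂ) =
      ∫ y : ℝ, Complex.exp ((y * u : ℝ) * Complex.I) * (K B y : ℂ) := by
    rw [← integral_neg_eq_self]
    congr 1; funext y
    have : K B (-y) = K B y := by unfold K; simp
    rw [this]
    congr 3; push_cast; ring
  rw [h4]
  have h5 : ∫ y : ℝ, Complex.exp ((y * u : ℝ) * Complex.I) * (2 * (K B y : ℂ)) =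
      2 * ∫ y : ℝ, Complex.exp ((y * u : ℝ) * Complex.I) * (K B y : ℂ) := by
    rw [← integral_const_mul]; congr 1; funext y; ring
  rw [h5] at hinv
  have hpi : (Real.pi : ℂ) ≠ 0 := by exact_mod_cast Real.pi_ne_zero
  have h6 : |(2 * Real.pi)⁻¹| = (2 * Real.pi)⁻¹ := abs_of_pos (by positivity)
  rw [h6, Complex.real_smul] at hinv
  generalize ∫ y : ℝ, Complex.exp ((y * u : ℝ) * Complex.I) * (K B y : ℂ) = J at hinv ⊢
  have h7 : J = Real.pi * f u := by
    rw [← hinv]; push_cast; field_simp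
  rw [h7, hf]; push_cast; ring

/-! ### Dirichlet series on a vertical line -/

/-- the Dirichlet series with coefficients `d` at the point `iy` -/
noncomputable def DS (d : ℕ → ℂ) (y : ℝ) : ℂ :=
  ∑' n : ℕ, d n * Complex.exp (-(y * Real.log n : ℝ) * Complex.I)

theorem norm_term (z : ℂ) (r : ℝ) : ‖z * Complex.exp (-(r : ℝ) * Complex.I)‖ = ‖z‖ := by
  rw [norm_mul, ← Complex.ofReal_neg, Complex.norm_exp_ofReal_mul_I, mul_one]

theorem DS_summable {d : ℕ → ℂ} (hd : Summable fun n => ‖d n‖) (y : ℝ) :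
    Summable fun n : ℕ => ‖d n * Complex.exp (-(y * Real.log n : ℝ) * Complex.I)‖ := by
  simpa only [norm_term] using hd

theorem DS_norm_le {d : ℕ → ℂ} (hd : Summable fun n => ‖d n‖) (y : ℝ) :
    ‖DS d y‖ ≤ ∑' n, ‖d n‖ := by
  refine (norm_tsum_le_tsum_norm (DS_summable hd y)).trans ?_
  simp only [norm_term]; exact le_rfl

theorem DS_cont {d : ℕ → ℂ} (hd : Summable fun n => ‖d n‖) : Continuous (DS d) := by
  refine continuous_tsum (fun n => by fun_prop) hd ?_
  intro n y; rw [norm_term]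

theorem DS_int {d : ℕ → ℂ} (hd : Summable fun n => ‖d n‖) {B : ℝ} (hB : 0 < B) :
    Integrable (fun y => ‖DS d y‖ ^ 2 * K B y) := by
  refine (K_int hB).bdd_mul (c := (∑' n, ‖d n‖) ^ 2)
    ((DS_cont hd).norm.pow 2).aestronglyMeasurable ?_
  refine Eventually.of_forall fun y => ?_
  rw [norm_pow, norm_norm]
  exact pow_le_pow_left₀ (norm_nonneg _) (DS_norm_le hd y) 2

theorem prod_summable {d : ℕ → ℂ} (hd : Summable fun n => ‖d n‖) :
    Summable fun p : ℕ × ℕ => ‖d p.1‖ * ‖d p.2‖ :=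
  hd.mul_of_nonneg hd (fun _ => norm_nonneg _) (fun _ => norm_nonneg _)

theorem DS_sq {d : ℕ → ℂ} (hd : Summable fun n => ‖d n‖) (y : ℝ) :
    ((‖DS d y‖ ^ 2 : ℝ) : ℂ) = ∑' p : ℕ × ℕ, d p.1 * conj (d p.2) *
      Complex.exp (-(y * (Real.log p.1 - Real.log p.2) : ℝ) * Complex.I) := by
  have h1 : ((‖DS d y‖ ^ 2 : ℝ) : ℂ) = DS d y * conj (DS d y) := by
    rw [Complex.mul_conj, Complex.normSq_eq_norm_sq]
  have hs := DS_summable hd y
  have h2 : conj (DS d y) = ∑' n : ℕ, conj (d n * Complex.exp (-(y * Real.log n : ℝ) *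
      Complex.I)) := by
    unfold DS; exact Complex.conj_tsum _
  have hs2 : Summable fun n : ℕ => ‖conj (d n * Complex.exp (-(y * Real.log n : ℝ) *
      Complex.I))‖ := by
    simpa only [Complex.norm_conj] using hs
  rw [h1, h2, DS, tsum_mul_tsum_of_summable_norm hs hs2]
  congr 1; funext p
  rw [map_mul, ← Complex.exp_conj]
  have h3 : conj (-((y * Real.log p.2 : ℝ) : ℂ) * Complex.I) =
      ((y * Real.log p.2 : ℝ) : ℂ) * Complex.I := by
    rw [map_mul, map_neg, Complex.conj_ofReal, Complex.conj_I]; ring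
  rw [h3]
  have h4 : Complex.exp (-(y * (Real.log p.1 - Real.log p.2) : ℝ) * Complex.I) =
      Complex.exp (-(y * Real.log p.1 : ℝ) * Complex.I) *
      Complex.exp ((y * Real.log p.2 : ℝ) * Complex.I) := by
    rw [← Complex.exp_add]; congr 1; push_cast; ring
  rw [h4]; ring

/-- the frequency side -/
theorem freq {d : ℕ → ℂ} (hd : Summable fun n => ‖d n‖) {B : ℝ} (hB : 0 < B) :
    ((∫ y, ‖DS d y‖ ^ 2 * K B y : ℝ) : ℂ) = ∑' p : ℕ × ℕ, d p.1 * conj (d p.2) *
      (Real.pi * Real.exp (-(B * |Real.log p.1 - Real.log p.2|)) : ℝ) := by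
  set G : ℕ × ℕ → ℝ → ℂ := fun p y => d p.1 * conj (d p.2) *
      Complex.exp (-(y * (Real.log p.1 - Real.log p.2) : ℝ) * Complex.I) * (K B y : ℂ) with hG
  have hGn : ∀ p y, ‖G p y‖ = ‖d p.1‖ * ‖d p.2‖ * K B y := by
    intro p y
    rw [hG]
    simp only [norm_mul, Complex.norm_conj, Complex.norm_real,
      Real.norm_of_nonneg (K_nonneg hB y)]
    rw [← Complex.ofReal_neg, Complex.norm_exp_ofReal_mul_I, mul_one]
  have hGi : ∀ p, Integrable (G p) := by
    intro p
    refine ((K_int hB).const_mul (‖d p.1‖ * ‖d p.2‖)).mono' ?_ ?_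
    · refine Continuous.aestronglyMeasurable ?_
      have := K_cont hB
      rw [hG]; fun_prop
    · exact Eventually.of_forall fun y => (hGn p y).le
  have hGs : Summable fun p => ∫ y, ‖G p y‖ := by
    have : (fun p => ∫ y, ‖G p y‖) = fun p : ℕ × ℕ => ‖d p.1‖ * ‖d p.2‖ * ∫ y, K B y := by
      funext p; simp only [hGn]; rw [integral_const_mul]
    rw [this]; exact (prod_summable hd).mul_right _
  have h1 := integral_tsum_of_summable_integral_norm hGi hGs
  have h2 : ∀ y, ∑' p, G p y = ((‖DS d y‖ ^ 2 * K B y : ℝ) : ℂ) := by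
    intro y
    rw [Complex.ofReal_mul, DS_sq hd y, ← tsum_mul_right]
  simp only [h2] at h1
  rw [integral_complex_ofReal] at h1
  rw [← h1]
  congr 1; funext p
  rw [← K_fourier hB, ← integral_const_mul]
  congr 1; funext y; rw [hG]; ring_nf

/-! ### The time side -/

/-- partial sums -/
noncomputable def S (b : ℕ → ℂ) (t : ℝ) : ℂ := ∑ n ∈ Icc 1 ⌊Real.exp t⌋₊, b n

theorem S_tsum {b : ℕ → ℂ} (h0 : b 0 = 0) (t : ℝ) :
    Summable (fun n : ℕ => ‖if Real.log n ≤ t then b n else 0‖) ∧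
    S b t = ∑' n : ℕ, if Real.log n ≤ t then b n else 0 := by
  have h : ∀ n ∉ Icc 1 ⌊Real.exp t⌋₊, (if Real.log (n : ℝ) ≤ t then b n else 0) = 0 := by
    intro n hn
    rcases Nat.eq_zero_or_pos n with h1 | h1
    · subst h1; simp [h0]
    · rw [if_neg]
      intro h2
      apply hn
      rw [mem_Icc]
      refine ⟨h1, Nat.le_floor ?_⟩
      have h3 : (0 : ℝ) < n := by exact_mod_cast h1
      exact (Real.log_le_iff_le_exp h3).mp h2
  refine ⟨summable_of_ne_finset_zero (s := Icc 1 ⌊Real.exp t⌋₊) fun n hn => by rw [h n hn, norm_zero],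
    ?_⟩
  rw [tsum_eq_sum h, S]
  refine sum_congr rfl fun n hn => ?_
  rw [if_pos]
  rw [mem_Icc] at hn
  have h3 : (0 : ℝ) < n := by exact_mod_cast hn.1
  rw [Real.log_le_iff_le_exp h3]
  exact (Nat.le_floor_iff (Real.exp_pos t).le).mp hn.2

theorem exp_tail {σ : ℝ} (hσ : 0 < σ) (M : ℝ) :
    Integrable (fun t : ℝ => if M ≤ t then Real.exp (-(2 * σ * t)) else 0) ∧
    ∫ t : ℝ, (if M ≤ t then Real.exp (-(2 * σ * t)) else 0) =
      Real.exp (-(2 * σ * M)) / (2 * σ) := by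
  have h : (fun t : ℝ => if M ≤ t then Real.exp (-(2 * σ * t)) else 0) =
      (Set.Ici M).indicator (fun t => Real.exp (-(2 * σ) * t)) := by
    funext t
    simp only [Set.indicator, Set.mem_Ici]
    congr 1
    rw [neg_mul]
  have h1 := integrableOn_exp_mul_Ioi (a := -(2 * σ)) (by linarith) M
  rw [h]
  refine ⟨?_, ?_⟩
  · rw [integrable_indicator_iff measurableSet_Ici]
    exact Iff.mpr integrableOn_Ici_iff_integrableOn_Ioi h1
  · rw [integral_indicator measurableSet_Ici, integral_Ici_eq_integral_Ioi,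
      integral_exp_mul_Ioi (by linarith)]
    rw [neg_mul]; field_simp

theorem time {b : ℕ → ℂ} (h0 : b 0 = 0) {σ : ℝ} (hσ : 0 < σ)
    (hd : Summable fun n : ℕ => ‖b n * (Real.exp (-(σ * Real.log n)) : ℂ)‖) :
    Integrable (fun t => ‖S b t‖ ^ 2 * Real.exp (-(2 * σ * t))) ∧
    ((∫ t, ‖S b t‖ ^ 2 * Real.exp (-(2 * σ * t)) : ℝ) : ℂ) =
      ∑' p : ℕ × ℕ, (b p.1 * (Real.exp (-(σ * Real.log p.1)) : ℂ)) *
        conj (b p.2 * (Real.exp (-(σ * Real.log p.2)) : ℂ)) *
        (Real.exp (-(σ * |Real.log p.1 - Real.log p.2|)) / (2 * σ) : ℝ) := by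
  set M : ℕ × ℕ → ℝ := fun p => max (Real.log p.1) (Real.log p.2) with hM
  set G : ℕ × ℕ → ℝ → ℂ := fun p t => b p.1 * conj (b p.2) *
      ((if M p ≤ t then Real.exp (-(2 * σ * t)) else 0 : ℝ) : ℂ) with hG
  have hkey : ∀ p : ℕ × ℕ, Real.exp (-(σ * Real.log p.1)) * Real.exp (-(σ * Real.log p.2)) *
      Real.exp (-(σ * |Real.log p.1 - Real.log p.2|)) = Real.exp (-(2 * σ * M p)) := by
    intro p
    rw [← Real.exp_add, ← Real.exp_add]
    congr 1
    rw [hM]
    simp only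
    rcases le_total (Real.log p.1) (Real.log p.2) with h | h
    · rw [max_eq_right h, abs_of_nonpos (by linarith)]; ring
    · rw [max_eq_left h, abs_of_nonneg (by linarith)]; ring
  have hGi : ∀ p, Integrable (G p) := fun p =>
    (((exp_tail hσ (M p)).1).ofReal (𝕜 := ℂ)).const_mul _
  have hGI : ∀ p, ∫ t, G p t = b p.1 * conj (b p.2) *
      (Real.exp (-(2 * σ * M p)) / (2 * σ) : ℝ) := by
    intro p
    rw [hG]
    simp only
    rw [integral_const_mul, integral_complex_ofReal, (exp_tail hσ (M p)).2]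
  have hGn : ∀ p t, ‖G p t‖ = ‖b p.1‖ * ‖b p.2‖ *
      (if M p ≤ t then Real.exp (-(2 * σ * t)) else 0) := by
    intro p t
    rw [hG]
    simp only [norm_mul, Complex.norm_conj, Complex.norm_real]
    congr 1
    split_ifs
    · exact Real.norm_of_nonneg (Real.exp_pos _).le
    · exact norm_zero
  have hGN : ∀ p, ∫ t, ‖G p t‖ = ‖b p.1‖ * ‖b p.2‖ * (Real.exp (-(2 * σ * M p)) / (2 * σ)) := by
    intro p
    simp only [hGn]
    rw [integral_const_mul, (exp_tail hσ (M p)).2]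
  have hGs : Summable fun p => ∫ t, ‖G p t‖ := by
    have h1 := (prod_summable hd).mul_right (1 / (2 * σ))
    refine h1.of_nonneg_of_le (fun p => integral_nonneg fun t => norm_nonneg _) fun p => ?_
    rw [hGN, ← hkey]
    simp only [norm_mul, Complex.norm_real, Real.norm_of_nonneg (Real.exp_pos _).le]
    have h2 : Real.exp (-(σ * |Real.log p.1 - Real.log p.2|)) ≤ 1 := by
      rw [Real.exp_le_one_iff]
      have := abs_nonneg (Real.log p.1 - Real.log p.2)
      nlinarith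
    have h3 : 0 ≤ ‖b p.1‖ * Real.exp (-(σ * Real.log p.1)) *
        (‖b p.2‖ * Real.exp (-(σ * Real.log p.2))) := by positivity
    calc _ = (‖b p.1‖ * Real.exp (-(σ * Real.log p.1)) *
        (‖b p.2‖ * Real.exp (-(σ * Real.log p.2)))) * (1 / (2 * σ)) *
        Real.exp (-(σ * |Real.log p.1 - Real.log p.2|)) := by ring
      _ ≤ (‖b p.1‖ * Real.exp (-(σ * Real.log p.1)) *
        (‖b p.2‖ * Real.exp (-(σ * Real.log p.2)))) * (1 / (2 * σ)) * 1 :=
        mul_le_mul_of_nonneg_left h2 (by positivity)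
      _ = _ := by ring
  have hpt : ∀ t, ∑' p, G p t = ((‖S b t‖ ^ 2 * Real.exp (-(2 * σ * t)) : ℝ) : ℂ) := by
    intro t
    obtain ⟨hs, he⟩ := S_tsum h0 t
    have h1 : ((‖S b t‖ ^ 2 : ℝ) : ℂ) = S b t * conj (S b t) := by
      rw [Complex.mul_conj, Complex.normSq_eq_norm_sq]
    have h2 : conj (S b t) = ∑' n : ℕ, conj (if Real.log n ≤ t then b n else 0) := by
      rw [he]; exact Complex.conj_tsum _
    have hs2 : Summable fun n : ℕ => ‖conj (if Real.log n ≤ t then b n else 0)‖ := by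
      simpa only [Complex.norm_conj] using hs
    rw [Complex.ofReal_mul, h1, h2]
    nth_rewrite 1 [he]
    rw [tsum_mul_tsum_of_summable_norm hs hs2, ← tsum_mul_right]
    congr 1; funext p
    rw [hG]
    simp only [hM, max_le_iff]
    by_cases h3 : Real.log p.1 ≤ t
    · by_cases h4 : Real.log p.2 ≤ t
      · simp [h3, h4]
      · simp [h3, h4]
    · simp [h3]
  have h1 := hasSum_integral_of_summable_integral_norm hGi hGs
  simp only [hpt] at h1
  rw [integral_complex_ofReal] at h1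
  refine ⟨?_, ?_⟩
  · refine ⟨?_, ?_⟩
    · refine Measurable.aestronglyMeasurable ?_
      have hS : Measurable (S b) := by
        have : S b = (fun N : ℕ => ∑ n ∈ Icc 1 N, b n) ∘ (fun t : ℝ => ⌊Real.exp t⌋₊) := rfl
        rw [this]
        exact measurable_from_nat.comp (Nat.measurable_floor.comp Real.measurable_exp)
      exact (hS.norm.pow_const 2).mul (by fun_prop)
    · refine lt_of_le_of_lt (b := ∫⁻ t, ∑' p, ‖G p t‖ₑ) ?_ ?_
      · refine lintegral_mono fun t => ?_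
        have h2 : ‖‖S b t‖ ^ 2 * Real.exp (-(2 * σ * t))‖ₑ = ‖∑' p, G p t‖ₑ := by
          rw [hpt, ← ofReal_norm, ← ofReal_norm, Complex.norm_real]
        rw [h2]
        exact enorm_tsum_le_tsum_enorm
      · rw [lintegral_tsum fun p => (hGi p).1.enorm]
        have h2 : ∀ p, ∫⁻ t, ‖G p t‖ₑ = ENNReal.ofReal (∫ t, ‖G p t‖) := fun p =>
          (ofReal_integral_norm_eq_lintegral_enorm (hGi p)).symm
        simp only [h2]
        rw [← ENNReal.ofReal_tsum_of_nonneg (fun p => integral_nonneg fun t => norm_nonneg _) hGs]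
        exact ENNReal.ofReal_lt_top
  · rw [← h1.tsum_eq]
    congr 1; funext p
    rw [hGI, ← hkey, map_mul, Complex.conj_ofReal]
    push_cast; ring

/-- Plancherel -/
theorem planch {b : ℕ → ℂ} (h0 : b 0 = 0) {σ : ℝ} (hσ : 0 < σ)
    (hd : Summable fun n : ℕ => ‖b n * (Real.exp (-(σ * Real.log n)) : ℂ)‖) :
    ∫ y, ‖DS (fun n => b n * (Real.exp (-(σ * Real.log n)) : ℂ)) y‖ ^ 2 * K σ y =
      2 * Real.pi * σ * ∫ t, ‖S b t‖ ^ 2 * Real.exp (-(2 * σ * t)) := by
  have h1 := freq hd hσ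
  have h2 := (time h0 hσ hd).2
  have h3 : ((∫ y, ‖DS (fun n => b n * (Real.exp (-(σ * Real.log n)) : ℂ)) y‖ ^ 2 * K σ y : ℝ) : ℂ)
      = ((2 * Real.pi * σ * ∫ t, ‖S b t‖ ^ 2 * Real.exp (-(2 * σ * t)) : ℝ) : ℂ) := by
    rw [h1, Complex.ofReal_mul, h2, ← tsum_mul_left]
    congr 1; funext p
    have : (σ : ℂ) ≠ 0 := by exact_mod_cast hσ.ne'
    push_cast; field_simp
  exact_mod_cast h3

/-- Plancherel, with a majorant and a wider kernel -/
theorem planch_le {b : ℕ → ℂ} {β : ℕ → ℝ} (h0 : β 0 = 0) (hb : ∀ n, ‖b n‖ ≤ β n) {σ B : ℝ}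
    (hσ : 0 < σ) (hB : σ ≤ B)
    (hd : Summable fun n : ℕ => β n * Real.exp (-(σ * Real.log n))) :
    ∫ y, ‖DS (fun n => b n * (Real.exp (-(σ * Real.log n)) : ℂ)) y‖ ^ 2 * K B y ≤
      2 * Real.pi * σ * ∫ t, ‖S (fun n => (β n : ℂ)) t‖ ^ 2 * Real.exp (-(2 * σ * t)) := by
  have hβ : ∀ n, 0 ≤ β n := fun n => (norm_nonneg _).trans (hb n)
  have hB0 : 0 < B := lt_of_lt_of_le hσ hB
  have hdb : ∀ n : ℕ, ‖b n * (Real.exp (-(σ * Real.log n)) : ℂ)‖ ≤
      β n * Real.exp (-(σ * Real.log n)) := by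
    intro n
    rw [norm_mul, Complex.norm_real, Real.norm_of_nonneg (Real.exp_pos _).le]
    exact mul_le_mul_of_nonneg_right (hb n) (Real.exp_pos _).le
  have hs1 : Summable fun n : ℕ => ‖b n * (Real.exp (-(σ * Real.log n)) : ℂ)‖ :=
    hd.of_nonneg_of_le (fun n => norm_nonneg _) hdb
  have hdβ : ∀ n : ℕ, ‖(β n : ℂ) * (Real.exp (-(σ * Real.log n)) : ℂ)‖ =
      β n * Real.exp (-(σ * Real.log n)) := by
    intro n
    rw [norm_mul, Complex.norm_real, Complex.norm_real, Real.norm_of_nonneg (Real.exp_pos _).le,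
      Real.norm_of_nonneg (hβ n)]
  have hs2 : Summable fun n : ℕ => ‖(β n : ℂ) * (Real.exp (-(σ * Real.log n)) : ℂ)‖ := by
    simpa only [hdβ] using hd
  have h1 := freq hs1 hB0
  have h2 := (time (b := fun n => (β n : ℂ)) (by simp [h0]) hσ hs2).2
  set g : ℕ → ℝ := fun n => β n * Real.exp (-(σ * Real.log n)) with hg
  have hg0 : ∀ n, 0 ≤ g n := fun n => mul_nonneg (hβ n) (Real.exp_pos _).le
  have hgg : Summable fun p : ℕ × ℕ => g p.1 * g p.2 := hd.mul_of_nonneg hd hg0 hg0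
  have h3 : (∫ t, ‖S (fun n => (β n : ℂ)) t‖ ^ 2 * Real.exp (-(2 * σ * t)) : ℝ) =
      ∑' p : ℕ × ℕ, g p.1 * g p.2 *
        (Real.exp (-(σ * |Real.log p.1 - Real.log p.2|)) / (2 * σ)) := by
    have h4 : ((∫ t, ‖S (fun n => (β n : ℂ)) t‖ ^ 2 * Real.exp (-(2 * σ * t)) : ℝ) : ℂ) =
      ((∑' p : ℕ × ℕ, g p.1 * g p.2 *
        (Real.exp (-(σ * |Real.log p.1 - Real.log p.2|)) / (2 * σ)) : ℝ) : ℂ) := by
      rw [h2, Complex.ofReal_tsum]
      congr 1; funext p
      rw [map_mul, Complex.conj_ofReal, Complex.conj_ofReal, hg]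
      push_cast; ring
    exact_mod_cast h4
  have hexp : ∀ (a x : ℝ), 0 ≤ a → 0 ≤ x → Real.exp (-(a * x)) ≤ 1 := by
    intro a x ha hx
    rw [Real.exp_le_one_iff]
    have := mul_nonneg ha hx
    linarith
  have hsum : Summable fun p : ℕ × ℕ => g p.1 * g p.2 *
        (Real.exp (-(σ * |Real.log p.1 - Real.log p.2|)) / (2 * σ)) := by
    refine (hgg.mul_right (1 / (2 * σ))).of_nonneg_of_le (fun p => ?_) fun p => ?_
    · exact mul_nonneg (mul_nonneg (hg0 _) (hg0 _)) (by positivity)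
    · refine mul_le_mul_of_nonneg_left ?_ (mul_nonneg (hg0 _) (hg0 _))
      exact div_le_div_of_nonneg_right (hexp _ _ hσ.le (abs_nonneg _)) (by positivity)
  have hnonneg : 0 ≤ ∫ y, ‖DS (fun n => b n * (Real.exp (-(σ * Real.log n)) : ℂ)) y‖ ^ 2 * K B y :=
    integral_nonneg fun y => mul_nonneg (by positivity) (K_nonneg hB0 y)
  have h5 : ∫ y, ‖DS (fun n => b n * (Real.exp (-(σ * Real.log n)) : ℂ)) y‖ ^ 2 * K B y =
      ‖((∫ y, ‖DS (fun n => b n * (Real.exp (-(σ * Real.log n)) : ℂ)) y‖ ^ 2 * K B y : ℝ) : ℂ)‖ := by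
    rw [Complex.norm_real, Real.norm_of_nonneg hnonneg]
  rw [h5, h1, h3, ← tsum_mul_left]
  refine tsum_of_norm_bounded (hsum.mul_left (2 * Real.pi * σ)).hasSum fun p => ?_
  rw [norm_mul, norm_mul, Complex.norm_conj, Complex.norm_real,
    Real.norm_of_nonneg (by positivity)]
  have h6 : Real.exp (-(B * |Real.log p.1 - Real.log p.2|)) ≤
      Real.exp (-(σ * |Real.log p.1 - Real.log p.2|)) := by
    rw [Real.exp_le_exp]
    have := mul_le_mul_of_nonneg_right hB (abs_nonneg (Real.log p.1 - Real.log p.2))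
    linarith
  calc _ ≤ g p.1 * g p.2 * (Real.pi * Real.exp (-(σ * |Real.log p.1 - Real.log p.2|))) := by
        refine mul_le_mul ?_ (mul_le_mul_of_nonneg_left h6 Real.pi_pos.le) (by positivity)
          (mul_nonneg (hg0 _) (hg0 _))
        exact mul_le_mul (hdb _) (hdb _) (norm_nonneg _) (hg0 _)
    _ = _ := by field_simp

end Pool.Agent.Y122.LT
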