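import Pool.Agent.Y122.LT.MeanSq
import Pool.Agent.Y872.L.Defs

/-!
Project LT (helper872), job LOWC: from the generating function to mean squares over the scales.
-/

set_option autoImplicit false

namespace Pool.Agent.Y122.LT

open Finset Filter MeasureTheory
open Pool.Agent.H376R2.MR (ch w bw WN)

/-- normalised partial sums -/
noncomputable def m (a : ℕ → ℂ) (u : ℝ) : ℝ := ‖S a u‖ * Real.exp (-u)

theorem m_nonneg (a : ℕ → ℂ) (u : ℝ) : 0 ≤ m a u := by unfold m; positivity

theorem S_le {a : ℕ → ℂ} (ha : ∀ n, ‖a n‖ ≤ 1) (u : ℝ) : ‖S a u‖ ≤ ⌊Real.exp u⌋₊ := by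
  unfold S
  refine (norm_sum_le _ _).trans ((sum_le_sum fun n _ => ha n).trans ?_)
  simp

theorem m_le {a : ℕ → ℂ} (ha : ∀ n, ‖a n‖ ≤ 1) (u : ℝ) : m a u ≤ 1 := by
  unfold m
  have h1 : ‖S a u‖ ≤ Real.exp u := (S_le ha u).trans (Nat.floor_le (Real.exp_pos u).le)
  calc _ ≤ Real.exp u * Real.exp (-u) := mul_le_mul_of_nonneg_right h1 (Real.exp_pos _).le
    _ = 1 := by rw [← Real.exp_add]; simp

theorem m_neg (a : ℕ → ℂ) {u : ℝ} (hu : u < 0) : m a u = 0 := by
  unfold m; rw [S_neg a hu]; simp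

theorem S_meas (a : ℕ → ℂ) : Measurable (S a) := by
  have : S a = (fun N : ℕ => ∑ n ∈ Icc 1 N, a n) ∘ (fun t : ℝ => ⌊Real.exp t⌋₊) := rfl
  rw [this]
  exact measurable_from_nat.comp (Nat.measurable_floor.comp Real.measurable_exp)

theorem m_meas (a : ℕ → ℂ) : Measurable (m a) := by
  unfold m; exact (S_meas a).norm.mul (by fun_prop)

theorem m_ii {a : ℕ → ℂ} (ha : ∀ n, ‖a n‖ ≤ 1) (x y : ℝ) : IntervalIntegrable (m a) volume x y := by
  refine (intervalIntegrable_const (c := (1 : ℝ))).mono_fun (m_meas a).aestronglyMeasurable ?_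
  refine Eventually.of_forall fun u => ?_
  change ‖m a u‖ ≤ ‖(1 : ℝ)‖
  rw [Real.norm_of_nonneg (m_nonneg a u)]
  simpa using m_le ha u

theorem sum_log (N : ℕ) : ∑ n ∈ Icc 1 N, Real.log n = Real.log (N.factorial) := by
  induction N with
  | zero => simp
  | succ N ih =>
    rw [Finset.sum_Icc_succ_top (by omega), ih, Nat.factorial_succ, Nat.cast_mul,
      Real.log_mul (by positivity) (by positivity)]
    ring

/-- comparison of the sums with and without logarithmic weight -/
theorem log_cmp {a : ℕ → ℂ} (ha : ∀ n, ‖a n‖ ≤ 1) {t : ℝ} (ht : 0 ≤ t) :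
    t * m a t ≤ ‖S (al a) t‖ * Real.exp (-t) + 1 := by
  set N := ⌊Real.exp t⌋₊ with hN
  have h1 : ‖(t : ℂ) * S a t - S (al a) t‖ ≤ Real.exp t := by
    have h2 : (t : ℂ) * S a t - S (al a) t = ∑ n ∈ Icc 1 N, a n * ((t - Real.log n : ℝ) : ℂ) := by
      unfold S al
      rw [mul_sum, ← sum_sub_distrib]
      refine sum_congr rfl fun n _ => ?_
      push_cast; ring
    rw [h2]
    have h3 : ∀ n ∈ Icc 1 N, ‖a n * ((t - Real.log n : ℝ) : ℂ)‖ ≤ t - Real.log n := by
      intro n hn
      rw [mem_Icc] at hn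
      have h4 : (0 : ℝ) < n := by exact_mod_cast hn.1
      have h5 : Real.log n ≤ t := by
        rw [Real.log_le_iff_le_exp h4]
        exact (Nat.le_floor_iff (Real.exp_pos t).le).mp hn.2
      rw [norm_mul, Complex.norm_real, Real.norm_of_nonneg (by linarith)]
      have := mul_le_mul_of_nonneg_right (ha n) (show 0 ≤ t - Real.log n by linarith)
      linarith
    refine (norm_sum_le _ _).trans ((sum_le_sum h3).trans ?_)
    rw [sum_sub_distrib, sum_const, Nat.card_Icc, nsmul_eq_mul]
    have h6 := sum_log N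
    rw [h6]
    have h7 := Real.pow_div_factorial_le_exp _ (Real.exp_pos t).le N
    have h8 : (0 : ℝ) < Real.exp t ^ N / N.factorial := by positivity
    have h9 := Real.log_le_log h8 h7
    rw [Real.log_exp, Real.log_div (by positivity) (by positivity), Real.log_pow,
      Real.log_exp] at h9
    simpa using h9
  have h2 : t * ‖S a t‖ ≤ ‖S (al a) t‖ + Real.exp t := by
    have h3 : ‖(t : ℂ) * S a t‖ = t * ‖S a t‖ := by
      rw [norm_mul, Complex.norm_real, Real.norm_of_nonneg ht]
    have h4 := norm_sub_norm_le ((t : ℂ) * S a t) (S (al a) t)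
    rw [h3] at h4
    linarith
  have h3 := mul_le_mul_of_nonneg_right h2 (Real.exp_pos (-t)).le
  have h4 : Real.exp t * Real.exp (-t) = 1 := by rw [← Real.exp_add]; simp
  unfold m
  calc t * (‖S a t‖ * Real.exp (-t)) = t * ‖S a t‖ * Real.exp (-t) := by ring
    _ ≤ _ := h3
    _ = _ := by rw [add_mul, h4]

/-- the mean of the normalised partial sums over the scales vanishes -/
theorem mean_m {a : ℕ → ℂ} (h : CMC a) (hF : HF a) (ε : ℝ) (hε : 0 < ε) :
    ∃ T₀ : ℝ, 1 ≤ T₀ ∧ ∀ T : ℝ, T₀ ≤ T → ∫ t in (0 : ℝ)..T, m a t ≤ ε * T := by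
  set ρ : ℝ := min (ε / 4) 1 with hρ
  have hρ0 : 0 < ρ := lt_min (by linarith) one_pos
  have hρε : ρ ≤ ε / 4 := min_le_left _ _
  have hρ1 : ρ ≤ 1 := min_le_right _ _
  set c : ℝ := 1 / 2 + Real.exp 2 * CC ^ 2 with hc
  have hc0 : 0 < c := by have := CC_pos; positivity
  set η : ℝ := ρ * (ε / 4) / c with hη
  have hη0 : 0 < η := by positivity
  obtain ⟨δ₀, hδ₀, hδ₁, h1⟩ := main_sq h hF η hη0
  refine ⟨max (2 / δ₀) (4 / (ρ * ε) + 1), le_max_of_le_right ?_, fun T hT => ?_⟩
  · have : 0 < 4 / (ρ * ε) := by positivity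
    linarith
  have hT1 : 2 / δ₀ ≤ T := (le_max_left _ _).trans hT
  have hT2 : 4 / (ρ * ε) + 1 ≤ T := (le_max_right _ _).trans hT
  have hT0 : 0 < T := by
    have : 0 < 4 / (ρ * ε) := by positivity
    linarith
  have hδT : 1 / T < δ₀ := by
    rw [div_lt_iff₀ hT0]
    rw [div_le_iff₀ hδ₀] at hT1
    linarith
  obtain ⟨hi, hb⟩ := h1 (1 / T) (by positivity) hδT
  set q : ℝ → ℝ := fun t => ‖S (al a) t‖ ^ 2 * Real.exp (-(2 * (1 + 1 / T) * t)) with hq
  have hq0 : ∀ t, 0 ≤ q t := fun t => by rw [hq]; positivity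
  have hqT : ∫ t in (0 : ℝ)..T, q t ≤ 2 * CC ^ 2 * η ^ 2 * T ^ 3 := by
    rw [intervalIntegral.integral_of_le hT0.le]
    refine (setIntegral_le_integral hi (Eventually.of_forall hq0)).trans (hb.trans (le_of_eq ?_))
    field_simp
  have hsplit : ∫ t in (0 : ℝ)..T, m a t = (∫ t in (0 : ℝ)..(ρ * T), m a t) +
      ∫ t in (ρ * T)..T, m a t :=
    (intervalIntegral.integral_add_adjacent_intervals (m_ii h.bdd _ _) (m_ii h.bdd _ _)).symm
  have hρT : ρ * T ≤ T := by nlinarith
  have hρT0 : 0 < ρ * T := by positivity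
  have hI1 : ∫ t in (0 : ℝ)..(ρ * T), m a t ≤ ρ * T := by
    have : ∫ t in (0 : ℝ)..(ρ * T), m a t ≤ ∫ t in (0 : ℝ)..(ρ * T), (1 : ℝ) :=
      intervalIntegral.integral_mono_on hρT0.le (m_ii h.bdd _ _) intervalIntegrable_const
        fun t _ => m_le h.bdd t
    simpa using this
  have hqi : ∀ x y, IntervalIntegrable q volume x y := fun x y => hi.intervalIntegrable
  have hI2 : ∫ t in (ρ * T)..T, m a t ≤
      ∫ t in (ρ * T)..T, ((η / (2 * ρ) + 1 / (ρ * T)) + Real.exp 2 / (2 * η * ρ * T ^ 2) * q t) := by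
    refine intervalIntegral.integral_mono_on hρT (m_ii h.bdd _ _)
      (intervalIntegrable_const.add ((hqi _ _).const_mul _)) fun t ht => ?_
    have ht0 : 0 < t := lt_of_lt_of_le hρT0 ht.1
    have h2 := log_cmp h.bdd ht0.le
    set X := ‖S (al a) t‖ * Real.exp (-t) with hX
    have hX0 : 0 ≤ X := by positivity
    have h3 : ρ * T * m a t ≤ X + 1 :=
      (mul_le_mul_of_nonneg_right ht.1 (m_nonneg a t)).trans h2
    have h4 : X ≤ (η * T + X ^ 2 / (η * T)) / 2 := by
      have h5 : 0 < η * T := by positivity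
      rw [le_div_iff₀ (by norm_num : (0 : ℝ) < 2), ← sub_nonneg]
      have : η * T + X ^ 2 / (η * T) - X * 2 = (η * T - X) ^ 2 / (η * T) := by
        field_simp; ring
      rw [this]; positivity
    have h5 : X ^ 2 ≤ Real.exp 2 * q t := by
      rw [hX, hq, mul_pow]
      simp only
      have h6 : Real.exp (-t) ^ 2 ≤ Real.exp 2 * Real.exp (-(2 * (1 + 1 / T) * t)) := by
        rw [← Real.exp_nat_mul, ← Real.exp_add, Real.exp_le_exp]
        have h7 : t / T ≤ 1 := by rw [div_le_one hT0]; exact ht.2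
        have h8 : 2 * (1 + 1 / T) * t = 2 * t + 2 * (t / T) := by ring
        rw [h8]; push_cast; linarith
      calc _ ≤ ‖S (al a) t‖ ^ 2 * (Real.exp 2 * Real.exp (-(2 * (1 + 1 / T) * t))) :=
            mul_le_mul_of_nonneg_left h6 (by positivity)
        _ = _ := by ring
    have h6 : ρ * T * m a t ≤ η * T / 2 + 1 + Real.exp 2 * q t / (2 * (η * T)) := by
      have h7 : X ^ 2 / (η * T) ≤ Real.exp 2 * q t / (η * T) :=
        div_le_div_of_nonneg_right h5 (by positivity)
      have h8 : Real.exp 2 * q t / (2 * (η * T)) = Real.exp 2 * q t / (η * T) / 2 := by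
        field_simp
      rw [h8]; linarith
    have h7 : m a t ≤ (η * T / 2 + 1 + Real.exp 2 * q t / (2 * (η * T))) / (ρ * T) := by
      rw [le_div_iff₀ hρT0]; linarith
    refine h7.trans (le_of_eq ?_)
    field_simp
  have hI3 : ∫ t in (ρ * T)..T, ((η / (2 * ρ) + 1 / (ρ * T)) +
      Real.exp 2 / (2 * η * ρ * T ^ 2) * q t) ≤
      T * (η / (2 * ρ)) + 1 / ρ + Real.exp 2 / (2 * η * ρ * T ^ 2) *
        (2 * CC ^ 2 * η ^ 2 * T ^ 3) := by
    rw [intervalIntegral.integral_add intervalIntegrable_const ((hqi _ _).const_mul _),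
      intervalIntegral.integral_const, intervalIntegral.integral_const_mul, smul_eq_mul]
    have h2 : ∫ t in (ρ * T)..T, q t ≤ 2 * CC ^ 2 * η ^ 2 * T ^ 3 := by
      refine le_trans ?_ hqT
      have h3 : ∫ t in (0 : ℝ)..T, q t = (∫ t in (0 : ℝ)..(ρ * T), q t) +
        ∫ t in (ρ * T)..T, q t :=
        (intervalIntegral.integral_add_adjacent_intervals (hqi _ _) (hqi _ _)).symm
      have h4 : 0 ≤ ∫ t in (0 : ℝ)..(ρ * T), q t :=
        intervalIntegral.integral_nonneg hρT0.le fun t _ => hq0 t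
      linarith
    have h3 : (T - ρ * T) * (η / (2 * ρ) + 1 / (ρ * T)) ≤ T * (η / (2 * ρ)) + 1 / ρ := by
      calc _ ≤ T * (η / (2 * ρ) + 1 / (ρ * T)) :=
            mul_le_mul_of_nonneg_right (by linarith) (by positivity)
        _ = _ := by field_simp
    exact add_le_add h3 (mul_le_mul_of_nonneg_left h2 (by positivity))
  have hfin : T * (η / (2 * ρ)) + 1 / ρ + Real.exp 2 / (2 * η * ρ * T ^ 2) *
        (2 * CC ^ 2 * η ^ 2 * T ^ 3) = T * (η * c / ρ) + 1 / ρ := by
    rw [hc]; field_simp; ring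
  have hηc : η * c / ρ = ε / 4 := by rw [hη]; field_simp
  have h1ρ : 1 / ρ ≤ ε / 4 * T := by
    have h2 : 4 / (ρ * ε) ≤ T := by linarith
    rw [div_le_iff₀ (by positivity)] at h2
    rw [div_le_iff₀ hρ0]
    nlinarith
  have h5 : ρ * T ≤ ε / 4 * T := mul_le_mul_of_nonneg_right hρε hT0.le
  rw [hsplit]
  rw [hfin, hηc] at hI3
  have h6 : 0 < ε * T := by positivity
  linarith [hI1, hI2, hI3]

/-! ### The tent window -/

/-- the kernel -/
noncomputable def kap (s : ℝ) : ℝ := 1 - |s| + (if s < 0 then -1 else 1)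

theorem kap_ii (t x y : ℝ) :
    IntervalIntegrable (fun u => Real.exp (-u) * kap (u - t)) volume x y := by
  unfold kap
  have h1 : IntervalIntegrable (fun u => Real.exp (-u) * (1 - |u - t|)) volume x y :=
    Continuous.intervalIntegrable (by fun_prop) _ _
  have h2 : Monotone (fun u : ℝ => if u - t < 0 then (-1 : ℝ) else 1) := by
    intro u v huv
    simp only
    split_ifs with h3 h4
    · exact le_rfl
    · norm_num
    · exfalso; linarith
    · exact le_rfl
  have h3 : IntervalIntegrable (fun u => Real.exp (-u) * (if u - t < 0 then (-1 : ℝ) else 1))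
      volume x y :=
    (h2.intervalIntegrable).continuousOn_mul (by fun_prop)
  refine (h1.add h3).congr fun u _ => ?_
  change Real.exp (-u) * (1 - |u - t|) + Real.exp (-u) * (if u - t < 0 then (-1 : ℝ) else 1) =
    Real.exp (-u) * (1 - |u - t| + (if u - t < 0 then (-1 : ℝ) else 1))
  ring

theorem tent_ftc (t x y : ℝ) (h1 : t - 1 ≤ x) (h2 : x ≤ y) (h3 : y ≤ t + 1) :
    ∫ u in x..y, Real.exp (-u) * kap (u - t) =
      Real.exp (-x) * (1 - |x - t|) - Real.exp (-y) * (1 - |y - t|) := by
  have h4 : ∫ u in x..y, Real.exp (-u) * kap (u - t) =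
      (fun u => -(Real.exp (-u) * (1 - |u - t|))) y - (fun u => -(Real.exp (-u) * (1 - |u - t|))) x := by
    refine MeasureTheory.integral_eq_of_hasDerivAt_off_countable_of_le
      (fun u => -(Real.exp (-u) * (1 - |u - t|))) _ h2
      (Set.countable_singleton t) (Continuous.continuousOn (by fun_prop)) ?_ (kap_ii t x y)
    intro u hu
    have hut : u ≠ t := fun h => hu.2 (by simpa using h)
    have he : HasDerivAt (fun u : ℝ => Real.exp (-u)) (-Real.exp (-u)) u := by
      have := (hasDerivAt_neg u).exp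
      rwa [mul_neg_one] at this
    rcases lt_or_gt_of_ne hut with hlt | hgt
    · have h5 : HasDerivAt (fun u => -(Real.exp (-u) * (1 - -(u - t))))
          (-(-Real.exp (-u) * (1 - -(u - t)) + Real.exp (-u) * 1)) u := by
        refine (he.mul ?_).neg
        have : HasDerivAt (fun u : ℝ => 1 - -(u - t)) (- -1) u :=
          (((hasDerivAt_id u).sub_const t).neg).const_sub 1
        simpa using this
      have h6 : HasDerivAt (fun u => -(Real.exp (-u) * (1 - |u - t|)))
          (-(-Real.exp (-u) * (1 - -(u - t)) + Real.exp (-u) * 1)) u := by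
        refine h5.congr_of_eventuallyEq ?_
        filter_upwards [eventually_lt_nhds hlt] with v hv
        rw [abs_of_neg (by linarith)]
      have h7 : Real.exp (-u) * kap (u - t) =
          -(-Real.exp (-u) * (1 - -(u - t)) + Real.exp (-u) * 1) := by
        unfold kap
        rw [if_pos (by linarith), abs_of_neg (by linarith)]
        ring
      rw [h7]; exact h6
    · have h5 : HasDerivAt (fun u => -(Real.exp (-u) * (1 - (u - t))))
          (-(-Real.exp (-u) * (1 - (u - t)) + Real.exp (-u) * (-1))) u := by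
        refine (he.mul ?_).neg
        exact ((hasDerivAt_id u).sub_const t).const_sub 1
      have h6 : HasDerivAt (fun u => -(Real.exp (-u) * (1 - |u - t|)))
          (-(-Real.exp (-u) * (1 - (u - t)) + Real.exp (-u) * (-1))) u := by
        refine h5.congr_of_eventuallyEq ?_
        filter_upwards [eventually_gt_nhds hgt] with v hv
        rw [abs_of_pos (by linarith)]
      have h7 : Real.exp (-u) * kap (u - t) =
          -(-Real.exp (-u) * (1 - (u - t)) + Real.exp (-u) * (-1)) := by
        unfold kap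
        rw [if_neg (by linarith), abs_of_pos (by linarith)]
        ring
      rw [h7]; exact h6
  rw [h4]; ring

theorem step_ii (t L x y : ℝ) : IntervalIntegrable
    (fun u => if L ≤ u then Real.exp (-u) * kap (u - t) else 0) volume x y := by
  refine (kap_ii t x y).mono_fun ?_ ?_
  · refine Measurable.aestronglyMeasurable ?_
    refine Measurable.ite (measurableSet_le measurable_const measurable_id) ?_ measurable_const
    unfold kap
    refine Measurable.mul (by fun_prop) (Measurable.add (by fun_prop) ?_)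
    exact Measurable.ite (measurableSet_lt (by fun_prop) measurable_const) measurable_const
      measurable_const
  · refine Eventually.of_forall fun u => ?_
    simp only
    split_ifs
    · exact le_rfl
    · rw [norm_zero]; exact norm_nonneg _

/-- the tent as a superposition of steps -/
theorem tent_eq (t L : ℝ) : Real.exp (-L) * w (L - t) =
    ∫ u in (t - 1)..(t + 1), (if L ≤ u then Real.exp (-u) * kap (u - t) else 0) := by
  have hz : ∀ s : ℝ, 1 ≤ |s| → w s = 0 := by
    intro s hs; unfold w; exact max_eq_left (by linarith)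
  rcases le_or_gt L (t - 1) with h1 | h1
  · have h2 : ∫ u in (t - 1)..(t + 1), (if L ≤ u then Real.exp (-u) * kap (u - t) else 0) =
        ∫ u in (t - 1)..(t + 1), Real.exp (-u) * kap (u - t) := by
      refine intervalIntegral.integral_congr fun u hu => ?_
      rw [Set.uIcc_of_le (by linarith)] at hu
      exact if_pos (by linarith [hu.1])
    rw [h2, tent_ftc t _ _ le_rfl (by linarith) le_rfl, hz]
    · simp
    · rw [abs_of_neg (by linarith)]; linarith
  rcases le_or_gt L (t + 1) with h2 | h2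
  · rw [← intervalIntegral.integral_add_adjacent_intervals (step_ii t L (t - 1) L)
      (step_ii t L L (t + 1))]
    have h3 : ∫ u in (t - 1)..L, (if L ≤ u then Real.exp (-u) * kap (u - t) else 0) = 0 := by
      rw [intervalIntegral.integral_of_le h1.le, integral_Ioc_eq_integral_Ioo]
      refine (setIntegral_congr_fun (g := fun _ => (0 : ℝ)) measurableSet_Ioo fun u hu => ?_).trans
        (by simp)
      simp only
      rw [if_neg (not_le.mpr hu.2)]
    have h4 : ∫ u in L..(t + 1), (if L ≤ u then Real.exp (-u) * kap (u - t) else 0) =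
        ∫ u in L..(t + 1), Real.exp (-u) * kap (u - t) := by
      refine intervalIntegral.integral_congr fun u hu => ?_
      rw [Set.uIcc_of_le h2] at hu
      exact if_pos hu.1
    rw [h3, h4, tent_ftc t _ _ h1.le h2 le_rfl, zero_add]
    have h5 : w (L - t) = 1 - |L - t| := by
      unfold w
      refine max_eq_right ?_
      rw [sub_nonneg, abs_le]
      constructor <;> linarith
    rw [h5]
    simp
  · have h3 : ∫ u in (t - 1)..(t + 1), (if L ≤ u then Real.exp (-u) * kap (u - t) else 0) = 0 := by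
      refine (intervalIntegral.integral_congr (g := fun _ => (0 : ℝ)) fun u hu => ?_).trans (by simp)
      rw [Set.uIcc_of_le (by linarith)] at hu
      exact if_neg (by linarith [hu.2])
    rw [h3, hz, mul_zero]
    rw [abs_of_pos (by linarith)]; linarith

/-- the windowed sum -/
noncomputable def AA (a : ℕ → ℂ) (t : ℝ) : ℂ :=
  ∑ n ∈ WN (Real.exp t), a n * (bw (Real.exp t) n : ℂ)

theorem AA_eq (a : ℕ → ℂ) (t : ℝ) :
    AA a t = ∫ u in (t - 1)..(t + 1), S a u * ((Real.exp (-u) * kap (u - t) : ℝ) : ℂ) := by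
  have hWN : WN (Real.exp t) = Icc 1 ⌊Real.exp (t + 1)⌋₊ := by
    unfold WN; rw [← Real.exp_add, add_comm]
  set N := ⌊Real.exp (t + 1)⌋₊ with hN
  have h1 : ∀ n ∈ Icc 1 N, a n * (bw (Real.exp t) n : ℂ) =
      ∫ u in (t - 1)..(t + 1), a n * ((if Real.log n ≤ u then Real.exp (-u) * kap (u - t) else 0 : ℝ) : ℂ) := by
    intro n hn
    rw [mem_Icc] at hn
    have hn0 : (0 : ℝ) < n := by exact_mod_cast hn.1
    have h2 : bw (Real.exp t) n = Real.exp (-Real.log n) * w (Real.log n - t) := by
      unfold bw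
      rw [Real.log_exp, Real.exp_neg, Real.exp_log hn0]
      ring
    rw [h2, tent_eq, intervalIntegral.integral_const_mul, intervalIntegral.integral_ofReal]
  rw [AA, hWN, sum_congr rfl h1, ← intervalIntegral.integral_finsetSum]
  · refine intervalIntegral.integral_congr fun u hu => ?_
    rw [Set.uIcc_of_le (by linarith)] at hu
    have h3 : S a u = ∑ n ∈ Icc 1 N, if Real.log n ≤ u then a n else 0 := by
      rw [← sum_filter, S]
      refine sum_congr ?_ fun _ _ => rfl
      ext n
      rw [mem_filter, mem_Icc, mem_Icc]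
      constructor
      · intro h
        have hn0 : (0 : ℝ) < n := by exact_mod_cast h.1
        have h5 : (n : ℝ) ≤ Real.exp u := (Nat.le_floor_iff (Real.exp_pos u).le).mp h.2
        refine ⟨⟨h.1, Nat.le_floor (h5.trans (Real.exp_le_exp.mpr hu.2))⟩, ?_⟩
        exact (Real.log_le_iff_le_exp hn0).mpr h5
      · intro h
        have hn0 : (0 : ℝ) < n := by exact_mod_cast h.1.1
        exact ⟨h.1.1, Nat.le_floor ((Real.log_le_iff_le_exp hn0).mp h.2)⟩
    rw [h3, sum_mul]
    refine sum_congr rfl fun n _ => ?_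
    split_ifs <;> simp
  · intro n _
    have h := step_ii t (Real.log n) (t - 1) (t + 1)
    have h' : IntervalIntegrable (fun u : ℝ => ((if Real.log n ≤ u then
      Real.exp (-u) * kap (u - t) else 0 : ℝ) : ℂ)) volume (t - 1) (t + 1) :=
      ⟨h.1.ofReal, h.2.ofReal⟩
    exact h'.const_mul _

theorem kap_le {t u : ℝ} (h1 : t - 1 ≤ u) (h2 : u ≤ t + 1) : |kap (u - t)| ≤ 2 := by
  unfold kap
  rw [abs_le]
  split_ifs with h
  · rw [abs_of_neg h]; constructor <;> linarith
  · rw [not_lt] at h
    rw [abs_of_nonneg h]; constructor <;> linarith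

theorem AA_le {a : ℕ → ℂ} (ha : ∀ n, ‖a n‖ ≤ 1) (t : ℝ) :
    ‖AA a t‖ ≤ 2 * ∫ u in (t - 1)..(t + 1), m a u := by
  rw [AA_eq, ← intervalIntegral.integral_const_mul]
  refine intervalIntegral.norm_integral_le_of_norm_le (by linarith) ?_ ((m_ii ha _ _).const_mul 2)
  refine Eventually.of_forall fun u hu => ?_
  rw [norm_mul, Complex.norm_real, Real.norm_eq_abs, abs_mul, abs_of_pos (Real.exp_pos _)]
  have h1 := kap_le hu.1.le hu.2
  unfold m
  calc _ ≤ ‖S a u‖ * (Real.exp (-u) * 2) := by
        refine mul_le_mul_of_nonneg_left ?_ (norm_nonneg _)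
        exact mul_le_mul_of_nonneg_left h1 (Real.exp_pos _).le
    _ = _ := by ring

theorem AA_le4 {a : ℕ → ℂ} (ha : ∀ n, ‖a n‖ ≤ 1) (t : ℝ) : ‖AA a t‖ ≤ 4 := by
  refine (AA_le ha t).trans ?_
  have : ∫ u in (t - 1)..(t + 1), m a u ≤ ∫ u in (t - 1)..(t + 1), (1 : ℝ) :=
    intervalIntegral.integral_mono_on (by linarith) (m_ii ha _ _) intervalIntegrable_const
      fun u _ => m_le ha u
  rw [intervalIntegral.integral_const] at this
  simp only [smul_eq_mul] at this
  linarith

theorem AA_mean {a : ℕ → ℂ} (ha : ∀ n, ‖a n‖ ≤ 1) {T : ℝ} (hT : 0 ≤ T) :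
    ∫ t in (0 : ℝ)..T, ‖AA a t‖ ^ 2 ≤ 16 * ∫ u in (0 : ℝ)..(T + 1), m a u := by
  set G : ℝ → ℝ := fun x => ∫ u in (0 : ℝ)..x, m a u with hG
  have hGc : Continuous G := intervalIntegral.continuous_primitive (fun x y => m_ii ha x y) 0
  have hGmono : Monotone G := by
    intro x y hxy
    have : G y = G x + ∫ u in x..y, m a u :=
      (intervalIntegral.integral_add_adjacent_intervals (m_ii ha _ _) (m_ii ha _ _)).symm
    rw [this]
    have : 0 ≤ ∫ u in x..y, m a u :=
      intervalIntegral.integral_nonneg hxy fun u _ => m_nonneg a u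
    linarith
  have hG0 : G 0 = 0 := by rw [hG]; simp
  have hGneg : ∀ x, x ≤ 0 → G x = 0 := by
    intro x hx
    rw [hG]
    simp only
    rw [intervalIntegral.integral_symm, intervalIntegral.integral_of_le hx,
      integral_Ioc_eq_integral_Ioo]
    rw [(setIntegral_congr_fun (g := fun _ => (0 : ℝ)) measurableSet_Ioo fun u hu => ?_)]
    · simp
    · exact m_neg a hu.2
  have hGnn : ∀ x, 0 ≤ G x := by
    intro x
    rcases le_total x 0 with h | h
    · rw [hGneg x h]
    · rw [← hG0]; exact hGmono h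
  have hd : ∀ t, ∫ u in (t - 1)..(t + 1), m a u = G (t + 1) - G (t - 1) := by
    intro t
    have := intervalIntegral.integral_add_adjacent_intervals (m_ii ha 0 (t - 1))
      (m_ii ha (t - 1) (t + 1))
    rw [hG]; simp only; linarith
  by_cases hi : IntervalIntegrable (fun t => ‖AA a t‖ ^ 2) volume 0 T
  swap
  · rw [intervalIntegral.integral_undef hi]
    have := hGnn (T + 1)
    simp only [hG] at this
    linarith
  have h1 : ∫ t in (0 : ℝ)..T, ‖AA a t‖ ^ 2 ≤ ∫ t in (0 : ℝ)..T, 8 * (G (t + 1) - G (t - 1)) := by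
    refine intervalIntegral.integral_mono_on hT hi
      (Continuous.intervalIntegrable (by fun_prop) _ _) fun t _ => ?_
    have h2 := AA_le ha t
    rw [hd] at h2
    have h3 := AA_le4 ha t
    have h4 := norm_nonneg (AA a t)
    nlinarith
  have h2 : ∫ t in (0 : ℝ)..T, 8 * (G (t + 1) - G (t - 1)) =
      8 * ((∫ t in (0 : ℝ)..T, G (t + 1)) - ∫ t in (0 : ℝ)..T, G (t - 1)) := by
    rw [intervalIntegral.integral_const_mul, intervalIntegral.integral_sub
      (Continuous.intervalIntegrable (by fun_prop) _ _)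
      (Continuous.intervalIntegrable (by fun_prop) _ _)]
  have hGi : ∀ x y, IntervalIntegrable G volume x y := fun x y => hGc.intervalIntegrable x y
  have h3 : ∫ t in (0 : ℝ)..T, G (t + 1) = ∫ t in (1 : ℝ)..(T + 1), G t := by
    rw [intervalIntegral.integral_comp_add_right]; simp
  have h4 : ∫ t in (0 : ℝ)..T, G (t - 1) = ∫ t in (-1 : ℝ)..(T - 1), G t := by
    rw [intervalIntegral.integral_comp_sub_right]; simp
  have h5 : (∫ t in (-1 : ℝ)..(T - 1), G t) + ∫ t in (T - 1)..(T + 1), G t =
      (∫ t in (-1 : ℝ)..1, G t) + ∫ t in (1 : ℝ)..(T + 1), G t := by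
    rw [intervalIntegral.integral_add_adjacent_intervals (hGi _ _) (hGi _ _),
      intervalIntegral.integral_add_adjacent_intervals (hGi _ _) (hGi _ _)]
  have h6 : 0 ≤ ∫ t in (-1 : ℝ)..1, G t :=
    intervalIntegral.integral_nonneg (by norm_num) fun t _ => hGnn t
  have h7 : ∫ t in (T - 1)..(T + 1), G t ≤ ∫ t in (T - 1)..(T + 1), G (T + 1) :=
    intervalIntegral.integral_mono_on (by linarith) (hGi _ _) intervalIntegrable_const
      fun t ht => hGmono ht.2
  rw [intervalIntegral.integral_const, smul_eq_mul] at h7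
  have h8 : (T + 1 - (T - 1)) * G (T + 1) = 2 * G (T + 1) := by ring
  rw [h8] at h7
  rw [h2, h3, h4] at h1
  have : 16 * ∫ u in (0 : ℝ)..(T + 1), m a u = 16 * G (T + 1) := rfl
  rw [this]
  linarith

/-- LOWC -/
theorem lowc : Pool.Agent.Y872.L.S_LOWC := by
  intro c h0 h1 hm hb hyp k ε hε
  set a : ℕ → ℂ := fun n => c n * ch k (Real.log n) with ha
  have hchn : ∀ x, ‖ch k x‖ = 1 := by
    intro x; unfold ch
    rw [← Complex.ofReal_neg, Complex.norm_exp_ofReal_mul_I]
  have hCM : CMC a := by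
    refine ⟨by simp [ha, h0], by simp [ha, h1, ch], ?_, ?_⟩
    · intro u v
      rcases Nat.eq_zero_or_pos u with hu | hu
      · subst hu; simp [ha, h0]
      rcases Nat.eq_zero_or_pos v with hv | hv
      · subst hv; simp [ha, h0]
      rw [ha]
      simp only
      rw [hm, Nat.cast_mul, Real.log_mul (by positivity) (by positivity)]
      have : ch k (Real.log u + Real.log v) = ch k (Real.log u) * ch k (Real.log v) := by
        unfold ch
        rw [← Complex.exp_add]; congr 1; push_cast; ring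
      rw [this]; ring
    · intro n
      rw [ha]; simp only
      rw [norm_mul, hchn, mul_one]; exact hb n
  have hHF : HF a := by
    intro B η hη
    obtain ⟨δ₀, hδ₀, hδ₁, h2⟩ := hyp (B + |(k : ℝ)|) η hη
    refine ⟨δ₀, hδ₀, hδ₁, fun δ hδ hδ' y hy => ?_⟩
    have h3 := h2 δ hδ hδ' (y + k) ((abs_add_le _ _).trans (by linarith))
    have h4 : DS (tw a (1 + δ)) y =
        ∑' n : ℕ, c n * (n : ℂ) ^ (-((1 + δ : ℝ) + (y + k : ℝ) * Complex.I : ℂ)) := by
      unfold DS
      congr 1; funext n
      rcases Nat.eq_zero_or_pos n with hn | hn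
      · subst hn; simp [tw, ha, h0]
      · rw [tw, ha]
        simp only
        rw [Complex.cpow_def_of_ne_zero (by exact_mod_cast hn.ne'), ch, Complex.ofReal_exp,
          mul_assoc, mul_assoc, ← Complex.exp_add, ← Complex.exp_add, ← Complex.natCast_log]
        congr 2; push_cast; ring
    rw [h4]; exact h3
  obtain ⟨T₀, hT₀, h2⟩ := mean_m hCM hHF (ε / 32) (by positivity)
  refine ⟨T₀, by linarith, fun T hT => ?_⟩
  have h3 := h2 (T + 1) (by linarith)
  have h4 := AA_mean hCM.bdd (T := T) (by linarith)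
  have h5 : ∫ t in (0 : ℝ)..T, ‖∑ n ∈ WN (Real.exp t), c n * (bw (Real.exp t) n : ℂ) *
      ch k (Real.log n)‖ ^ 2 = ∫ t in (0 : ℝ)..T, ‖AA a t‖ ^ 2 := by
    congr 1; funext t
    congr 2
    unfold AA
    refine sum_congr rfl fun n _ => ?_
    rw [ha]; ring
  rw [h5]
  have h6 : ε * (T + 1) ≤ ε * (2 * T) := mul_le_mul_of_nonneg_left (by linarith) hε.le
  linarith

end Pool.Agent.Y122.LT
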