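import Pool.Agent.Y122.LT.Cauchy

/-!
Halasz-type mean squares of the partial sums of a completely multiplicative function.
-/

set_option autoImplicit false

namespace Pool.Agent.Y122.LT

open Finset Filter MeasureTheory
open scoped ArithmeticFunction.vonMangoldt

/-- completely multiplicative, bounded by one -/
structure CMC (a : ℕ → ℂ) : Prop where
  zero : a 0 = 0
  one : a 1 = 1
  mul : ∀ m n, a (m * n) = a m * a n
  bdd : ∀ n, ‖a n‖ ≤ 1

/-- twist by `n^{-σ}` -/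
noncomputable def tw (b : ℕ → ℂ) (σ : ℝ) : ℕ → ℂ :=
  fun n => b n * (Real.exp (-(σ * Real.log n)) : ℂ)

theorem DS_eq {b : ℕ → ℂ} (h0 : b 0 = 0) (σ y : ℝ) :
    DS (tw b σ) y = LSeries b ((σ : ℂ) + y * Complex.I) := by
  unfold DS LSeries
  congr 1; funext n
  rcases Nat.eq_zero_or_pos n with h | h
  · subst h; simp [tw, h0]
  · rw [LSeries.term_of_ne_zero h.ne', tw, div_eq_mul_inv, ← Complex.cpow_neg,
      Complex.cpow_def_of_ne_zero (by exact_mod_cast h.ne'), Complex.ofReal_exp, mul_assoc,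
      ← Complex.exp_add, ← Complex.natCast_log]
    congr 2; push_cast; ring

theorem tw_norm (b : ℕ → ℂ) (σ : ℝ) (n : ℕ) :
    ‖tw b σ n‖ = ‖b n‖ * Real.exp (-(σ * Real.log n)) := by
  rw [tw, norm_mul, Complex.norm_real, Real.norm_of_nonneg (Real.exp_pos _).le]

theorem tw_summable {b : ℕ → ℂ} (h0 : b 0 = 0) {σ : ℝ} :
    (Summable fun n => ‖tw b σ n‖) ↔ LSeriesSummable b (σ : ℂ) := by
  rw [LSeriesSummable, ← summable_norm_iff (f := LSeries.term b (σ : ℂ))]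
  refine summable_congr fun n => ?_
  rw [tw_norm]
  rcases Nat.eq_zero_or_pos n with h | h
  · subst h; simp [h0]
  · rw [LSeries.norm_term_eq, if_neg h.ne', Complex.ofReal_re, div_eq_mul_inv,
      ← Real.rpow_neg (Nat.cast_nonneg n), Real.rpow_def_of_pos (by exact_mod_cast h)]
    congr 2; ring

theorem summable_of_bdd {a : ℕ → ℂ} (ha : ∀ n, ‖a n‖ ≤ 1) {s : ℂ}
    (hs : 1 < s.re) : LSeriesSummable a s :=
  LSeriesSummable_of_bounded_of_one_lt_re (m := 1) (fun n _ => ha n) hs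

/-- `a Λ` -/
noncomputable def aL (a : ℕ → ℂ) : ℕ → ℂ := fun n => a n * (Λ n : ℂ)

/-- `a log` -/
noncomputable def al (a : ℕ → ℂ) : ℕ → ℂ := fun n => a n * (Real.log n : ℂ)

theorem aL_summable {a : ℕ → ℂ} (ha : ∀ n, ‖a n‖ ≤ 1) {s : ℂ} (hs : 1 < s.re) :
    LSeriesSummable (aL a) s := by
  have h := ArithmeticFunction.LSeriesSummable_vonMangoldt hs
  rw [LSeriesSummable, ← summable_norm_iff] at h ⊢
  refine h.of_nonneg_of_le (fun n => norm_nonneg _) fun n => ?_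
  refine LSeries.norm_term_le s ?_
  rw [aL, norm_mul]
  have := mul_le_mul_of_nonneg_right (ha n) (norm_nonneg (Λ n : ℂ))
  simpa using this

theorem al_conv {a : ℕ → ℂ} (h : CMC a) : al a = LSeries.convolution a (aL a) := by
  rw [LSeries.convolution_def]
  funext n
  rcases Nat.eq_zero_or_pos n with h0 | h0
  · subst h0; simp [al, h.zero]
  have h1 : ∀ p ∈ n.divisorsAntidiagonal, a p.1 * aL a p.2 = a n * (Λ p.2 : ℂ) := by
    intro p hp
    rw [aL, ← mul_assoc, ← h.mul, (Nat.mem_divisorsAntidiagonal.mp hp).1]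
  rw [sum_congr rfl h1, ← mul_sum, al]
  congr 1
  rw [Nat.sum_divisorsAntidiagonal' (f := fun _ d => (Λ d : ℂ)), ← Complex.ofReal_sum,
    ArithmeticFunction.vonMangoldt_sum]

theorem al_LSeries {a : ℕ → ℂ} (h : CMC a) {s : ℂ} (hs : 1 < s.re) :
    LSeriesSummable (al a) s ∧ LSeries (al a) s = LSeries a s * LSeries (aL a) s := by
  have h1 := summable_of_bdd h.bdd hs
  have h2 := aL_summable h.bdd hs
  rw [al_conv h]
  exact ⟨h1.convolution h2, LSeries_convolution' h1 h2⟩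

/-- the constant of Chebyshev -/
noncomputable def CC : ℝ := Real.log 4 + 4

theorem CC_pos : 0 < CC := by
  unfold CC; have := Real.log_pos (show (1 : ℝ) < 4 by norm_num); linarith

theorem S_neg (b : ℕ → ℂ) {t : ℝ} (ht : t < 0) : S b t = 0 := by
  have h : ⌊Real.exp t⌋₊ = 0 := by
    rw [Nat.floor_eq_zero]; exact Real.exp_lt_one_iff.mpr ht
  rw [S, h]; simp

theorem S_psi (t : ℝ) : ‖S (fun n => (Λ n : ℂ)) t‖ ≤ CC * Real.exp t := by
  have h1 : S (fun n => (Λ n : ℂ)) t = ((Chebyshev.psi (Real.exp t) : ℝ) : ℂ) := by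
    rw [S, Chebyshev.psi, Complex.ofReal_sum]
    rfl
  rw [h1, Complex.norm_real, Real.norm_of_nonneg (Chebyshev.psi_nonneg _)]
  exact Chebyshev.psi_le_const_mul_self (Real.exp_pos t).le

theorem Lam_norm_summable {σ : ℝ} (hσ : 1 < σ) :
    Summable fun n : ℕ => Λ n * Real.exp (-(σ * Real.log n)) := by
  have h := aL_summable (a := fun _ => 1) (by simp) (s := (σ : ℂ)) (by simpa using hσ)
  rw [← tw_summable (by simp [aL])] at h
  refine h.congr fun n => ?_
  rw [tw_norm, aL]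
  simp

/-- mean square of the logarithmic derivative -/
theorem D_sq {a : ℕ → ℂ} (h : CMC a) {θ B : ℝ} (hθ : 0 < θ) (hθ1 : θ ≤ 1) (hB : 2 ≤ B) :
    (∫ y, ‖DS (tw (aL a) (1 + θ)) y‖ ^ 2 * K (1 + θ) y ≤ 2 * Real.pi * CC ^ 2 / θ) ∧
    (∫ y, ‖DS (tw (aL a) (1 + θ)) y‖ ^ 2 * K B y ≤ 2 * Real.pi * CC ^ 2 / θ) := by
  have hσ : 0 < 1 + θ := by linarith
  have hb : ∀ n, ‖aL a n‖ ≤ Λ n := by
    intro n
    rw [aL, norm_mul, Complex.norm_real,
      Real.norm_of_nonneg ArithmeticFunction.vonMangoldt_nonneg]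
    have := mul_le_mul_of_nonneg_right (h.bdd n)
      (ArithmeticFunction.vonMangoldt_nonneg (n := n))
    linarith
  have hs := Lam_norm_summable (σ := 1 + θ) (by linarith)
  have hlog0 : (Λ 0 : ℝ) = 0 := by simp
  have hR : ∫ t, ‖S (fun n => (Λ n : ℂ)) t‖ ^ 2 * Real.exp (-(2 * (1 + θ) * t)) ≤
      CC ^ 2 / (2 * θ) := by
    obtain ⟨i1, i2⟩ := exp_tail hθ 0
    have h0 : ∀ n : ℕ, ‖(Λ n : ℂ) * (Real.exp (-((1 + θ) * Real.log n)) : ℂ)‖ =
        Λ n * Real.exp (-((1 + θ) * Real.log n)) := by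
      intro n
      rw [norm_mul, Complex.norm_real, Complex.norm_real, Real.norm_of_nonneg (Real.exp_pos _).le,
        Real.norm_of_nonneg ArithmeticFunction.vonMangoldt_nonneg]
    have i3 := (time (b := fun n => (Λ n : ℂ)) (by simp) hσ (by simpa only [h0] using hs)).1
    calc _ ≤ ∫ t : ℝ, CC ^ 2 * (if 0 ≤ t then Real.exp (-(2 * θ * t)) else 0) := by
          refine integral_mono i3 (i1.const_mul _) fun t => ?_
          simp only
          split_ifs with ht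
          · have h1 := pow_le_pow_left₀ (norm_nonneg _) (S_psi t) 2
            calc _ ≤ (CC * Real.exp t) ^ 2 * Real.exp (-(2 * (1 + θ) * t)) :=
                  mul_le_mul_of_nonneg_right h1 (Real.exp_pos _).le
              _ = CC ^ 2 * (Real.exp t * Real.exp t * Real.exp (-(2 * (1 + θ) * t))) := by ring
              _ = _ := by
                  rw [← Real.exp_add, ← Real.exp_add]; congr 2; ring
          · rw [S_neg _ (by linarith)]; simp
      _ = _ := by rw [integral_const_mul, i2]; simp; ring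
  have hfin : 2 * Real.pi * (1 + θ) * ∫ t, ‖S (fun n => (Λ n : ℂ)) t‖ ^ 2 *
      Real.exp (-(2 * (1 + θ) * t)) ≤ 2 * Real.pi * CC ^ 2 / θ := by
    have hp := Real.pi_pos
    calc _ ≤ 2 * Real.pi * (1 + θ) * (CC ^ 2 / (2 * θ)) :=
          mul_le_mul_of_nonneg_left hR (by positivity)
      _ = (1 + θ) / 2 * (2 * Real.pi * CC ^ 2 / θ) := by field_simp
      _ ≤ 1 * (2 * Real.pi * CC ^ 2 / θ) :=
          mul_le_mul_of_nonneg_right (by linarith) (by positivity)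
      _ = _ := one_mul _
  exact ⟨(planch_le hlog0 hb hσ le_rfl hs).trans hfin,
    (planch_le hlog0 hb hσ (by linarith) hs).trans hfin⟩

/-- the hypothesis -/
def HF (a : ℕ → ℂ) : Prop := ∀ B η : ℝ, 0 < η → ∃ θ₀ : ℝ, 0 < θ₀ ∧ θ₀ ≤ 1 ∧
  ∀ θ : ℝ, 0 < θ → θ < θ₀ → ∀ y : ℝ, |y| ≤ B → θ * ‖DS (tw a (1 + θ)) y‖ ≤ η

theorem F_le {a : ℕ → ℂ} (h : CMC a) : ∃ θ₁ : ℝ, 0 < θ₁ ∧
    ∀ θ : ℝ, 0 < θ → θ < θ₁ → ∀ y : ℝ, θ * ‖DS (tw a (1 + θ)) y‖ ≤ 2 := by
  have h1 := tendsto_sub_mul_tsum_nat_rpow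
  have h2 : ∀ᶠ s : ℝ in nhdsWithin 1 (Set.Ioi 1), (s - 1) * ∑' n : ℕ, 1 / (n : ℝ) ^ s < 2 :=
    h1.eventually_lt_const (by norm_num)
  rw [eventually_nhdsWithin_iff, Metric.eventually_nhds_iff] at h2
  obtain ⟨ε, hε, h3⟩ := h2
  refine ⟨ε, hε, fun θ hθ hθε y => ?_⟩
  have h4 := h3 (y := 1 + θ) (by rw [Real.dist_eq]; simpa [abs_of_pos hθ] using hθε)
    (by simpa using hθ)
  have hs : Summable fun n => ‖tw a (1 + θ) n‖ := by
    rw [tw_summable h.zero]
    exact summable_of_bdd h.bdd (by simpa using hθ)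
  have hs2 : Summable fun n : ℕ => 1 / (n : ℝ) ^ (1 + θ) :=
    Real.summable_one_div_nat_rpow.mpr (by linarith)
  have h5 : ∑' n, ‖tw a (1 + θ) n‖ ≤ ∑' n : ℕ, 1 / (n : ℝ) ^ (1 + θ) := by
    refine hs.tsum_le_tsum (fun n => ?_) hs2
    rw [tw_norm]
    rcases Nat.eq_zero_or_pos n with h0 | h0
    · subst h0; simp [h.zero]; positivity
    · have h6 : 1 / (n : ℝ) ^ (1 + θ) = Real.exp (-((1 + θ) * Real.log n)) := by
        rw [one_div, ← Real.rpow_neg (Nat.cast_nonneg n),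
          Real.rpow_def_of_pos (by exact_mod_cast h0)]
        congr 1; ring
      rw [h6]
      have := mul_le_mul_of_nonneg_right (h.bdd n) (Real.exp_pos (-((1 + θ) * Real.log n))).le
      linarith
  have h7 := (DS_norm_le hs y).trans h5
  have h8 := mul_le_mul_of_nonneg_left h7 hθ.le
  have h9 : 1 + θ - 1 = θ := by ring
  rw [h9] at h4
  linarith

/-- mean square of the derivative, on the frequency side and on the time side -/
theorem main_sq {a : ℕ → ℂ} (h : CMC a) (hF : HF a) (η : ℝ) (hη : 0 < η) :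
    ∃ θ₀ : ℝ, 0 < θ₀ ∧ θ₀ ≤ 1 ∧ ∀ θ : ℝ, 0 < θ → θ < θ₀ →
      Integrable (fun t => ‖S (al a) t‖ ^ 2 * Real.exp (-(2 * (1 + θ) * t))) ∧
      ∫ t, ‖S (al a) t‖ ^ 2 * Real.exp (-(2 * (1 + θ) * t)) ≤ 2 * CC ^ 2 * η ^ 2 / θ ^ 3 := by
  set B : ℝ := max 2 (16 / η ^ 2) with hB
  have hB2 : 2 ≤ B := le_max_left _ _
  have hB16 : 16 / B ≤ η ^ 2 := by
    rw [div_le_iff₀ (by linarith)]
    have h1 : 16 / η ^ 2 ≤ B := le_max_right _ _
    rw [div_le_iff₀ (by positivity)] at h1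
    linarith
  obtain ⟨θ₀, hθ₀, hθ₀1, h0⟩ := hF B η hη
  obtain ⟨θ₁, hθ₁, h1⟩ := F_le h
  refine ⟨min θ₀ θ₁, lt_min hθ₀ hθ₁, (min_le_left _ _).trans hθ₀1, fun θ hθ hθm => ?_⟩
  have hθ' : θ < θ₀ := lt_of_lt_of_le hθm (min_le_left _ _)
  have hθ'' : θ < θ₁ := lt_of_lt_of_le hθm (min_le_right _ _)
  have hθ1 : θ ≤ 1 := by linarith
  have hσ : 0 < 1 + θ := by linarith
  have hs : 1 < ((1 + θ : ℝ) : ℂ).re := by simpa using hθ
  have hal0 : al a 0 = 0 := by simp [al]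
  have haL0 : aL a 0 = 0 := by simp [aL]
  have sal : Summable fun n => ‖tw (al a) (1 + θ) n‖ :=
    (tw_summable hal0).mpr (al_LSeries h hs).1
  have saL : Summable fun n => ‖tw (aL a) (1 + θ) n‖ :=
    (tw_summable haL0).mpr (aL_summable h.bdd hs)
  refine ⟨(time hal0 hσ sal).1, ?_⟩
  obtain ⟨d1, d2⟩ := D_sq h hθ hθ1 hB2
  have hprod : ∀ y, ‖DS (tw (al a) (1 + θ)) y‖ = ‖DS (tw a (1 + θ)) y‖ *
      ‖DS (tw (aL a) (1 + θ)) y‖ := by
    intro y
    rw [DS_eq hal0, DS_eq haL0, DS_eq h.zero, (al_LSeries h ?_).2, norm_mul]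
    simpa using hθ
  have hpt : ∀ y, ‖DS (tw (al a) (1 + θ)) y‖ ^ 2 * K (1 + θ) y ≤
      (η / θ) ^ 2 * (‖DS (tw (aL a) (1 + θ)) y‖ ^ 2 * K (1 + θ) y) +
      (16 / B / θ ^ 2) * (‖DS (tw (aL a) (1 + θ)) y‖ ^ 2 * K B y) := by
    intro y
    have hK1 := K_nonneg hσ y
    have hK2 := K_nonneg (show 0 < B by linarith) y
    rw [hprod, mul_pow]
    set D := ‖DS (tw (aL a) (1 + θ)) y‖ ^ 2 with hD
    have hD0 : 0 ≤ D := by positivity
    by_cases hy : |y| ≤ B
    · have h2 := h0 θ hθ hθ' y hy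
      have h3 : ‖DS (tw a (1 + θ)) y‖ ≤ η / θ := by
        rw [le_div_iff₀ hθ]; linarith
      have h4 := pow_le_pow_left₀ (norm_nonneg _) h3 2
      have h5 : 0 ≤ (16 / B / θ ^ 2) * (D * K B y) := by positivity
      have h6 := mul_le_mul_of_nonneg_right h4 (show 0 ≤ D * K (1 + θ) y by positivity)
      linarith
    · rw [not_le] at hy
      have h2 := h1 θ hθ hθ'' y
      have h3 : ‖DS (tw a (1 + θ)) y‖ ≤ 2 / θ := by
        rw [le_div_iff₀ hθ]; linarith
      have h4 := pow_le_pow_left₀ (norm_nonneg _) h3 2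
      have h5 : 0 ≤ (η / θ) ^ 2 * (D * K (1 + θ) y) := by positivity
      have hyB : B ^ 2 ≤ y ^ 2 := by
        rw [← sq_abs y]; exact pow_le_pow_left₀ (by linarith) hy.le 2
      have h6 : K (1 + θ) y ≤ 4 / B * K B y := by
        have hB0 : 0 < B := by linarith
        unfold K
        rw [div_mul_div_comm, div_le_div_iff₀ (by positivity) (by positivity)]
        have : (1 + θ) * (B * (B ^ 2 + y ^ 2)) ≤ 2 * (B * (2 * y ^ 2)) := by
          refine mul_le_mul (by linarith) ?_ (by positivity) (by norm_num)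
          exact mul_le_mul_of_nonneg_left (by linarith) hB0.le
        have h7 : 2 * (B * (2 * y ^ 2)) ≤ 4 * B * ((1 + θ) ^ 2 + y ^ 2) := by
          have : 0 ≤ B * (1 + θ) ^ 2 := by positivity
          linarith
        linarith
      calc _ ≤ (2 / θ) ^ 2 * D * (4 / B * K B y) := by
            refine mul_le_mul (mul_le_mul_of_nonneg_right h4 hD0) h6 hK1 (by positivity)
        _ = (16 / B / θ ^ 2) * (D * K B y) := by ring
        _ ≤ _ := by linarith
  have hint1 := DS_int sal hσ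
  have hint2 := DS_int saL hσ
  have hint3 := DS_int saL (show 0 < B by linarith)
  have hI : ∫ y, ‖DS (tw (al a) (1 + θ)) y‖ ^ 2 * K (1 + θ) y ≤
      (η / θ) ^ 2 * (2 * Real.pi * CC ^ 2 / θ) + (16 / B / θ ^ 2) * (2 * Real.pi * CC ^ 2 / θ) := by
    calc _ ≤ ∫ y, ((η / θ) ^ 2 * (‖DS (tw (aL a) (1 + θ)) y‖ ^ 2 * K (1 + θ) y) +
      (16 / B / θ ^ 2) * (‖DS (tw (aL a) (1 + θ)) y‖ ^ 2 * K B y)) :=
          integral_mono hint1 ((hint2.const_mul _).add (hint3.const_mul _)) hpt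
      _ = (η / θ) ^ 2 * (∫ y, ‖DS (tw (aL a) (1 + θ)) y‖ ^ 2 * K (1 + θ) y) +
      (16 / B / θ ^ 2) * (∫ y, ‖DS (tw (aL a) (1 + θ)) y‖ ^ 2 * K B y) := by
          rw [integral_add (hint2.const_mul _) (hint3.const_mul _), integral_const_mul,
            integral_const_mul]
      _ ≤ _ := by
          refine add_le_add (mul_le_mul_of_nonneg_left d1 (by positivity))
            (mul_le_mul_of_nonneg_left d2 ?_)
          have : 0 < B := by linarith
          positivity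
  have hP := planch hal0 hσ sal
  change ∫ y, ‖DS (tw (al a) (1 + θ)) y‖ ^ 2 * K (1 + θ) y = _ at hP
  rw [hP] at hI
  have hpi := Real.pi_pos
  have hcc := CC_pos
  set X := ∫ t, ‖S (al a) t‖ ^ 2 * Real.exp (-(2 * (1 + θ) * t)) with hX
  have hX0 : 0 ≤ X := integral_nonneg fun t => by positivity
  have h8 : 2 * Real.pi * X ≤ 2 * Real.pi * (2 * CC ^ 2 * η ^ 2 / θ ^ 3) := by
    calc 2 * Real.pi * X ≤ 2 * Real.pi * (1 + θ) * X := by
          have : 0 ≤ 2 * Real.pi * X * θ := by positivity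
          nlinarith
      _ ≤ _ := hI
      _ = (η ^ 2 + 16 / B) * (2 * Real.pi * CC ^ 2 / θ ^ 3) := by
          have : B ≠ 0 := by linarith
          field_simp
      _ ≤ (η ^ 2 + η ^ 2) * (2 * Real.pi * CC ^ 2 / θ ^ 3) :=
          mul_le_mul_of_nonneg_right (by linarith) (by positivity)
      _ = _ := by ring
  exact le_of_mul_le_mul_left h8 (by positivity)

end Pool.Agent.Y122.LT
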